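import Pool.Agent.H41.TW.Sys

/-!
# [H41 TW SYS2] Lemma W (THEOREM K, MP_e49dc9_ag): linear systems with independent sections

As `exists_lsys`, for transcendence degree `2`: the quotients of three of the sections, one of them the section `s none`,
are algebraically independent.
-/

set_option autoImplicit false

namespace Pool.Agent.H41.TW

open Pool.Agent.H54.RV Pool.Agent.H83.TU Pool.Agent.H83.TK Pool.Agent.H24.TK

variable {k K : Type} [Field k] [Field K] [Algebra k K] {X : Mod k K}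

theorem exists_lsys2 [CharZero k] (hX : IsVar X) (hg : ∃ g, Gen X g) {A : Cart X} (hA : Ample A)
    (htr : Algebra.trdeg k K = 2) :
    ∃ (m : ℕ) (σ : Type) (_ : Fintype σ) (s : Option σ → K), 1 ≤ m ∧ LSys X (A ^ m) s ∧
      ∃ i₀ j : σ, s (some j) ≠ 0 ∧ AlgebraicIndependent k ![s none / s (some j), s (some i₀) / s (some j)] := by
  classical
  obtain ⟨g, hgg⟩ := hg
  -- independent functions
  obtain ⟨u, hu⟩ : ∃ u : Fin 2 → K, AlgebraicIndependent k u := by
    obtain ⟨B, hB⟩ := exists_isTranscendenceBasis k K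
    have h1 : Cardinal.mk B = Cardinal.mk (Fin 2) := by
      rw [hB.cardinalMk_eq_trdeg, htr, Cardinal.mk_fin]
      rfl
    obtain ⟨e⟩ := Cardinal.eq.1 h1
    exact ⟨fun i => (e.symm i : K), hB.1.comp _ e.symm.injective⟩
  have hO : ∀ f : K, f ∈ X.O g := fun f => by
    rw [hgg.top]
    exact Algebra.mem_top
  obtain ⟨m₁, h1⟩ := uf_all hX A {g} (u 0) hA (fun x hx => by
    rw [Finset.mem_singleton.1 hx]
    exact hO _)
  obtain ⟨m₂, h2⟩ := uf_all hX A {g} (u 1) hA (fun x hx => by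
    rw [Finset.mem_singleton.1 hx]
    exact hO _)
  obtain ⟨m, hm, r, t, ht⟩ := exists_fr hX A hA
  obtain ⟨M, hM⟩ : ∃ M, M = m * (m₁ + m₂ + 1) := ⟨_, rfl⟩
  obtain ⟨s₁, hs1, hs1f, hg1⟩ := h1 M (by rw [hM]; nlinarith)
  obtain ⟨s₂, hs2, hs2f, hg2⟩ := h2 M (by rw [hM]; nlinarith)
  have hs10 : s₁ ≠ 0 := by
    rintro rfl
    exact (hg1 g (Finset.mem_singleton_self g)).1 (zero_mul _)
  have hs20 : s₂ ≠ 0 := by
    rintro rfl
    exact (hg2 g (Finset.mem_singleton_self g)).1 (zero_mul _)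
  have hM1 : 1 ≤ M := by
    rw [hM]
    exact Nat.mul_pos hm (Nat.succ_pos _)
  have mulS : ∀ a b : K, Sec A M a → Sec A M b → a * b ∈ secL (A ^ (M + M)) 1 := by
    intro a b ha hb x
    have h3 := (X.O x).mul_mem (ha x) (hb x)
    have h4 : a * b * (A ^ (M + M)).eq x ^ 1 = a * A.eq x ^ M * (b * A.eq x ^ M) := by
      rw [pow_one, pow_eq]
      ring
    rw [h4]
    exact h3
  refine ⟨M + M, Fin r ⊕ Bool, inferInstance,
    fun i => match i with
      | none => s₁ * u 0 * s₂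
      | some (Sum.inl j) => t j ^ (2 * (m₁ + m₂ + 1))
      | some (Sum.inr true) => s₁ * s₂
      | some (Sum.inr false) => s₁ * (s₂ * u 1), by omega, ⟨?_, ?_, ?_⟩, Sum.inr false, Sum.inr true, ?_, ?_⟩
  · intro i
    match i with
    | none => exact mulS _ _ hs1f hs2
    | some (Sum.inl j) =>
      intro x
      have h3 := (X.O x).pow_mem (ht.sec j x) (2 * (m₁ + m₂ + 1))
      rw [pow_one, mul_pow, pow_eq, ← pow_mul] at h3
      show t j ^ (2 * (m₁ + m₂ + 1)) * (A ^ (M + M)).eq x ^ 1 ∈ X.O x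
      have h4 : M + M = m * (2 * (m₁ + m₂ + 1)) := by
        rw [hM]
        ring
      rw [pow_one, pow_eq, h4]
      exact h3
    | some (Sum.inr true) => exact mulS _ _ hs1 hs2
    | some (Sum.inr false) => exact mulS _ _ hs1 hs2f
  · intro x
    obtain ⟨j, hj⟩ := ht.cov x
    refine ⟨some (Sum.inl j), ?_⟩
    have h3 : Un (X.O x) ((t j * (A ^ m).eq x ^ 1) ^ (2 * (m₁ + m₂ + 1))) := un_pow hj _
    rw [pow_one, mul_pow, pow_eq, ← pow_mul] at h3
    show Un (X.O x) (t j ^ (2 * (m₁ + m₂ + 1)) * (A ^ (M + M)).eq x)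
    have h4 : M + M = m * (2 * (m₁ + m₂ + 1)) := by
      rw [hM]
      ring
    rw [pow_eq, h4]
    exact h3
  · refine ⟨some (Sum.inr false), some (Sum.inr true), mul_ne_zero hs10 hs20, ?_⟩
    show Transcendental k (s₁ * (s₂ * u 1) / (s₁ * s₂))
    have h3 : s₁ * (s₂ * u 1) / (s₁ * s₂) = u 1 := by
      field_simp
    rw [h3]
    exact hu.transcendental 1
  · exact mul_ne_zero hs10 hs20
  · show AlgebraicIndependent k ![s₁ * u 0 * s₂ / (s₁ * s₂), s₁ * (s₂ * u 1) / (s₁ * s₂)]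
    have h3 : s₁ * (s₂ * u 1) / (s₁ * s₂) = u 1 := by
      field_simp
    have h4 : s₁ * u 0 * s₂ / (s₁ * s₂) = u 0 := by
      field_simp
    rw [h3, h4]
    have h5 : ![u 0, u 1] = u := by
      funext i
      fin_cases i <;> rfl
    rw [h5]
    exact hu

end Pool.Agent.H41.TW
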