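import Pool.Agent.H41.TW.Crv
import Pool.Agent.H41.TW.Sys2
import Pool.Agent.H83.TK.GsE

/-!
# [H41 TW CRV1] Lemma W (THEOREM K, MP_e49dc9_ag): the generic curve on a surface, with `h0(O_C) = 1`

As `exists_curve`, over an algebraically closed field, with the additional component `h0 (1 : Cart C) 1 = 1`
(`gs_main_one` of `H83.TK.GsE`).
-/

set_option autoImplicit false

namespace Pool.Agent.H41.TW

open Pool.Agent.H54.RV Pool.Agent.H83.TU Pool.Agent.H83.TK Pool.Agent.H24.TK Pool.Agent.H41.TK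

variable {k K : Type} [Field k] [Field K] [Algebra k K] {X : Mod k K}

theorem exists_curve1 [IsAlgClosed k] [CharZero k] [T0Space X.P] (hX : IsVar X) (z : X.P)
    (hz : Algebra.trdeg k (X.kap z) = 2) {A : Cart X} (hA : Ample A) :
    ∃ (m : ℕ) (k' K' : Type) (_ : Field k') (_ : Field K') (_ : Algebra k' K') (_ : CharZero k') (C : Mod k' K')
      (φ : Cart X →* Cart C), 1 ≤ m ∧ Crv C ∧ (∀ D, Ample D → Ample (φ D)) ∧
      (∀ W : Cart X, h0 (resD hX z W) 1 ≤ h0 (resD hX z (W * (A ^ m)⁻¹)) 1 + h0 (φ W) 1) ∧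
      (∀ W D : Cart X, Ample D → ∃ n₀ : ℕ, ∀ n ≥ n₀,
        h0 (resD hX z (W * D ^ n)) 1 = h0 (resD hX z (W * D ^ n * (A ^ m)⁻¹)) 1 + h0 (φ (W * D ^ n)) 1) ∧
      h0 (1 : Cart C) 1 = 1 := by
  classical
  have hV := isVar_sub hX z
  have hgV : ∃ g, Gen (subM hX z) g := ⟨_, gen_sub hX z⟩
  have hT0 : T0Space (subM hX z).P := t0_sub hX z
  have hAV := res_ample hX z A hA
  obtain ⟨m, σ, hσ, s, hm, hs, hind⟩ := exists_lsys2 hV hgV hAV hz
  obtain ⟨k', K', i1, i2, i3, i4, i5, i6, i7, i8, l, h⟩ := exists_bc k (X.kap z) σ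
  obtain ⟨z', hsl, hSPr, htr, -, -, hone⟩ := gs_main_one hV hgV h hs ⟨_, hAV⟩ hind
  have hV' := isVar_bc hV hgV h
  have hchar : CharZero k' := charZero_of_injective_algebraMap (algebraMap k k').injective
  have hAV' : Ample (bcD hV hgV h (resD hX z A)) := bc_ample hV hgV h _ hAV
  have hgC : ∃ g, Gen (subM hV' z') g := ⟨_, gen_sub hV' z'⟩
  have hVC := isVar_sub hV' z'
  have hAC := res_ample hV' z' _ hAV'
  -- dimensions of the pull-back
  have hfd : ∀ W : Cart X, FiniteDimensional k (secL (resD hX z W) 1) := fun W => fd hV hgV hAV _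
  have e1 : ∀ W : Cart X, FiniteDimensional k' (secL (bcD hV hgV h (resD hX z W)) 1) ∧
      h0 (bcD hV hgV h (resD hX z W)) 1 = h0 (resD hX z W) 1 := fun W => by
    haveI := hfd W
    exact bc_h0 hV hgV h (resD hX z W) 1
  have e2 : ∀ W : Cart X, FiniteDimensional k' (secL (resD hV' z' (bcD hV hgV h (resD hX z W))) 1) := fun W =>
    fd hVC hgC hAC _
  have e3 : ∀ W : Cart X, h0 ((bcD hV hgV h (resD hX z W)) ^ 1 *
      (bcD hV hgV h (resD hX z A ^ m) * prin (bcM (subM hX z) h) (gsec K' l s) hsl)⁻¹) 1 =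
        h0 (resD hX z (W * (A ^ m)⁻¹)) 1 := by
    intro W
    rw [h0_div_prin, pow_one, ← map_inv, ← map_mul, ← map_pow, ← map_inv, ← map_mul]
    exact (e1 _).2
  refine ⟨m, k', (bcM (subM hX z) h).kap z', inferInstance, inferInstance, inferInstance, hchar, subM hV' z',
    (resD hV' z').comp ((bcD hV hgV h).comp (resD hX z)), hm, ⟨hVC, hgC, ⟨_, hAC⟩, ?_⟩, ?_, ?_, ?_, hone⟩
  · rw [hz, ← one_add_one_eq_two] at htr
    exact Cardinal.add_one_inj.1 htr
  · intro D hD
    exact res_ample hV' z' _ (bc_ample hV hgV h _ (res_ample hX z D hD))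
  · intro W
    haveI := (e1 W).1
    haveI := e2 W
    have h1 := ex_le hV' hSPr (bcD hV hgV h (resD hX z W)) 1
    rw [e3, (e1 W).2] at h1
    exact h1
  · intro W D hD
    obtain ⟨n₀, hn⟩ := ser_ample hV' (bc_ample hV hgV h _ (res_ample hX z D hD)) z'
      (bcD hV hgV h (resD hX z W))
    refine ⟨n₀, fun n hn' => ?_⟩
    have h2 := hn n hn'
    have h3 : bcD hV hgV h (resD hX z W) * bcD hV hgV h (resD hX z D) ^ n =
        bcD hV hgV h (resD hX z (W * D ^ n)) := by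
      rw [map_mul, map_mul, map_pow, map_pow]
    rw [h3] at h2
    haveI := (e1 (W * D ^ n)).1
    haveI := e2 (W * D ^ n)
    have h1 := ex_dim hV' hSPr (bcD hV hgV h (resD hX z (W * D ^ n))) 1
    rw [e3, (e1 _).2, LinearMap.range_eq_top.2 h2, finrank_top] at h1
    exact h1

end Pool.Agent.H41.TW
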