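import Pool.Agent.H41.TW.Crv
import Pool.Agent.H41.TK.DG
import Pool.Agent.H20.TK.Tau

/-!
# [H41 TW W1] Lemma W (THEOREM K, MP_e49dc9_ag): the lower bound on the surface

`S` an ample prime divisor with generic point `z` on a threefold with (CY), `B` a divisor with `B S² > 0`:
`h0 (S, S + B) ≥ chi (S + B) - chi (B)`.  The generic curve `C` in the linear system of `m S` on the surface has
`- 2 chi (O_C) = m (m + 1) S³`, and `C (S + B + j m S) > - 2 chi (O_C)` for `j ≥ 1`.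
-/

set_option autoImplicit false

namespace Pool.Agent.H41.TW

open Pool.Agent.H54.RV Pool.Agent.H83.TU Pool.Agent.H83.TK Pool.Agent.H24.TK Pool.Agent.H41.TK Pool.Agent.H20.TK

variable {k K : Type} [Field k] [Field K] [Algebra k K] {X : Mod k K}
  {ν : Cart X →* Multiplicative (Fin 2 → ℤ)} {q : Fin 4 → ℝ} {l : (Fin 2 → ℝ) →ₗ[ℝ] ℝ} {c : ℝ}

/-- the Hilbert polynomial of the surface -/
theorem surf_ev [CharZero k] (hX : IsVar X) (hg : ∃ g, Gen X g) (cy : CY q l c ν) {z : X.P} {S : Cart X}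
    (hS : SPr X z S) (W A : Cart X) (hA : Ample A) : ∃ n₀ : ℕ, ∀ n ≥ n₀,
      (h0 (resD hX z (W * A ^ n)) 1 : ℝ) = chT q l c (cv ν S) (cv ν (W * A ^ n)) := by
  obtain ⟨n1, h1⟩ := ser_ample hX hA z W
  obtain ⟨n2, h2⟩ := cy.ev W A hA
  obtain ⟨n3, h3⟩ := cy.ev (W * S⁻¹) A hA
  refine ⟨max n1 (max n2 n3), fun n hn => ?_⟩
  have a1 := h1 n (le_trans (le_max_left _ _) hn)
  have a2 := h2 n (le_trans ((le_max_left _ _).trans (le_max_right _ _)) hn)
  have a3 := h3 n (le_trans ((le_max_right _ _).trans (le_max_right _ _)) hn)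
  haveI := fd hX hg hA (W * A ^ n)
  have a4 := ex_dim hX hS (W * A ^ n) 1
  rw [LinearMap.range_eq_top.2 a1, finrank_top, pow_one, mul_right_comm] at a4
  have a5 : (h0 (W * A ^ n) 1 : ℝ) = h0 (W * S⁻¹ * A ^ n) 1 + h0 (resD hX z (W * A ^ n)) 1 := by
    exact_mod_cast a4
  have a6 : cv ν (W * S⁻¹ * A ^ n) = cv ν (W * A ^ n) - cv ν S := by
    rw [mul_right_comm, cv_mul, cv_inv, sub_eq_add_neg]
  rw [a6] at a3
  unfold chT
  linarith

/-- two linear functions which agree for large `n` -/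
private theorem lin_eq {a b a' b' : ℝ} {N : ℕ} (h : ∀ n : ℕ, N ≤ n → a + n * b = a' + n * b') : a = a' ∧ b = b' := by
  have h1 := h N le_rfl
  have h2 := h (N + 1) (Nat.le_succ N)
  push_cast at h2
  have h3 : b = b' := by linarith
  refine ⟨?_, h3⟩
  rw [h3] at h1
  linarith

theorem w_surf [CharZero k] [T0Space X.P] (hX : IsVar X) (hg : ∃ g, Gen X g) (cy : CY q l c ν) {z : X.P}
    {S : Cart X} (hS : SPr X z S) (hz : Algebra.trdeg k (X.kap z) = 2) (hA : Ample S) (B : Cart X)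
    (hB : 0 < tau q (cv ν B) (cv ν S) (cv ν S)) :
    chi q l c (cv ν B + cv ν S) - chi q l c (cv ν B) ≤ (h0 (resD hX z (B * S)) 1 : ℝ) := by
  obtain ⟨m, k', K', i1, i2, i3, hch, C, φ, hm, hC, hφ, hle, heq⟩ := exists_curve hX z hz hA
  obtain ⟨t, ht⟩ : ∃ t, t = cv ν S := ⟨_, rfl⟩
  obtain ⟨τ, hτ⟩ : ∃ τ, τ = tau q t t t := ⟨_, rfl⟩
  obtain ⟨e, he⟩ : ∃ e : ℝ, e = (Pool.Agent.H41.TK.chi C : ℤ) := ⟨_, rfl⟩
  have hm1 : (1 : ℝ) ≤ m := by exact_mod_cast hm
  have hdS : 0 < dg (φ S) := dg_ample hC _ (hφ S hA)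
  -- the degree and the Euler characteristic of the curve
  have key : ∀ W : Cart X, m * tau q (cv ν W) t t - (m ^ 2 + m) * τ / 2 = (dg (φ W) : ℝ) + e ∧
      m * τ = (dg (φ S) : ℝ) := by
    intro W
    obtain ⟨w, hw⟩ : ∃ w, w = cv ν W := ⟨_, rfl⟩
    obtain ⟨n1, h1⟩ := surf_ev hX hg cy hS W S hA
    obtain ⟨n2, h2⟩ := surf_ev hX hg cy hS (W * (S ^ m)⁻¹) S hA
    obtain ⟨n3, h3⟩ := heq W S hA
    obtain ⟨n4, h4⟩ : ∃ n4 : ℕ, ∀ n : ℕ, n4 ≤ n → - 2 * Pool.Agent.H41.TK.chi C < dg (φ W) + n * dg (φ S) := by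
      refine ⟨(- 2 * Pool.Agent.H41.TK.chi C - dg (φ W) + 1).toNat, fun n hn => ?_⟩
      have h5 : (- 2 * Pool.Agent.H41.TK.chi C - dg (φ W) + 1) ≤ n := Int.toNat_le.1 hn
      have h6 : (n : ℤ) * 1 ≤ n * dg (φ S) := mul_le_mul_of_nonneg_left (by omega) (Int.natCast_nonneg _)
      omega
    refine lin_eq (N := max (max n1 n2) (max n3 n4)) fun n hn => ?_
    have a1 := h1 n (le_trans ((le_max_left _ _).trans (le_max_left _ _)) hn)
    have a2 := h2 n (le_trans ((le_max_right _ _).trans (le_max_left _ _)) hn)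
    have a3 := h3 n (le_trans ((le_max_left _ _).trans (le_max_right _ _)) hn)
    have a4 := h4 n (le_trans ((le_max_right _ _).trans (le_max_right _ _)) hn)
    have a5 : dg (φ (W * S ^ n)) = dg (φ W) + n * dg (φ S) := by
      rw [map_mul, map_pow, dg_mul hC, dg_pow hC]
    have a6 := h0_eq hC (φ (W * S ^ n)) (by rw [a5]; exact a4)
    rw [a5] at a6
    have a7 : (h0 (φ (W * S ^ n)) 1 : ℝ) = dg (φ W) + n * dg (φ S) + e := by
      rw [he]
      exact_mod_cast a6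
    have a8 : (h0 (resD hX z (W * S ^ n)) 1 : ℝ) =
        h0 (resD hX z (W * (S ^ m)⁻¹ * S ^ n)) 1 + h0 (φ (W * S ^ n)) 1 := by
      rw [mul_right_comm W]
      exact_mod_cast a3
    have a9 : cv ν (W * S ^ n) = w + (n : ℝ) • t := by
      rw [cv_mul, cv_pow, ← hw, ← ht]
    have a10 : cv ν (W * (S ^ m)⁻¹ * S ^ n) = w + (n : ℝ) • t - (m : ℝ) • t := by
      rw [mul_right_comm, cv_mul, cv_inv, cv_pow ν S m, a9, ← ht, sub_eq_add_neg]
    rw [a1, a2, a7, a9, a10, ← ht] at a8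
    have a11 := chT_sub q l c t (w + (n : ℝ) • t) ((m : ℝ) • t)
    simp only [tau_add, tau_smul, tau_smul2, ← hτ] at a11
    rw [← hw]
    linarith
  obtain ⟨k1, k2⟩ := key 1
  rw [map_one, dg_one, cv_one] at k1
  have k3 : tau q 0 t t = 0 := by
    unfold tau
    simp
  rw [k3] at k1
  have k4 : e = -((m ^ 2 + m) * τ / 2) := by
    push_cast at k1
    linarith
  have hτ0 : 0 < τ := by
    have h1 : (0 : ℝ) < dg (φ S) := by exact_mod_cast hdS
    rw [← k2] at h1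
    exact (pos_iff_pos_of_mul_pos h1).1 (by linarith)
  -- the steps
  obtain ⟨W, hW⟩ : ∃ W : ℕ → Cart X, W = fun j => B * S * S ^ (m * j) := ⟨_, rfl⟩
  have cW : ∀ j, cv ν (W j) = cv ν B + (1 + m * j : ℝ) • t := by
    intro j
    rw [hW]
    show cv ν (B * S * S ^ (m * j)) = _
    rw [cv_mul, cv_mul, cv_pow, ← ht, add_smul, one_smul, add_assoc]
    push_cast
    rfl
  have step : ∀ j : ℕ, (h0 (resD hX z (W (j + 1))) 1 : ℝ) ≤
      h0 (resD hX z (W j)) 1 + (chT q l c t (cv ν (W (j + 1))) - chT q l c t (cv ν (W j))) := by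
    intro j
    have b1 := hle (W (j + 1))
    have b2 : W (j + 1) * (S ^ m)⁻¹ = W j := by
      rw [hW]
      show B * S * S ^ (m * (j + 1)) * (S ^ m)⁻¹ = B * S * S ^ (m * j)
      rw [mul_add, mul_one, pow_add, ← mul_assoc, mul_inv_cancel_right]
    rw [b2] at b1
    have b3 := (key (W (j + 1))).1
    have b4 : tau q (cv ν (W (j + 1))) t t = tau q (cv ν B) t t + (1 + m * (j + 1 : ℕ)) * τ := by
      rw [cW, tau_add, tau_smul, ← hτ]
    have hj : (0 : ℝ) ≤ j := Nat.cast_nonneg j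
    have b5 : (0 : ℝ) < tau q (cv ν B) t t := by
      rw [ht]
      exact hB
    have b6 : -2 * e < (dg (φ (W (j + 1))) : ℝ) := by
      have c1 : (dg (φ (W (j + 1))) : ℝ) = m * tau q (cv ν (W (j + 1))) t t := by
        rw [k4] at b3
        linarith
      rw [c1, b4, k4]
      have c2 : 0 < m * tau q (cv ν B) t t := mul_pos (by linarith) b5
      have c3 : 0 ≤ m * m * (j : ℝ) * τ :=
        mul_nonneg (mul_nonneg (mul_nonneg (by linarith) (by linarith)) hj) hτ0.le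
      push_cast
      nlinarith
    have b7 : -2 * Pool.Agent.H41.TK.chi C < dg (φ (W (j + 1))) := by
      rw [he] at b6
      exact_mod_cast b6
    have b8 := h0_eq hC _ b7
    have b9 : (h0 (φ (W (j + 1))) 1 : ℝ) = dg (φ (W (j + 1))) + e := by
      rw [he]
      exact_mod_cast b8
    have b10 : (h0 (resD hX z (W (j + 1))) 1 : ℝ) ≤ h0 (resD hX z (W j)) 1 + h0 (φ (W (j + 1))) 1 := by
      exact_mod_cast b1
    have b11 : cv ν (W j) = cv ν (W (j + 1)) - (m : ℝ) • t := by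
      rw [cW, cW, add_sub_assoc, ← sub_smul]
      congr 2
      push_cast
      ring
    have b12 := chT_sub q l c t (cv ν (W (j + 1))) ((m : ℝ) • t)
    rw [← b11] at b12
    simp only [tau_smul, tau_smul2, ← hτ] at b12
    rw [b9] at b10
    linarith
  have all : ∀ J : ℕ, (h0 (resD hX z (W J)) 1 : ℝ) ≤
      h0 (resD hX z (W 0)) 1 + (chT q l c t (cv ν (W J)) - chT q l c t (cv ν (W 0))) := by
    intro J
    induction J with
    | zero => simp
    | succ J ih =>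
      have := step J
      linarith
  obtain ⟨n1, h1⟩ := surf_ev hX hg cy hS (B * S) S hA
  have h2 := h1 (m * n1) (by nlinarith)
  have h3 := all n1
  have h4 : W n1 = B * S * S ^ (m * n1) := by rw [hW]
  rw [← h4, ← ht] at h2
  have h5 : W 0 = B * S := by
    rw [hW]
    show B * S * S ^ (m * 0) = B * S
    rw [mul_zero, pow_zero, mul_one]
  rw [h5] at h3
  have h6 : chT q l c t (cv ν (B * S)) = Pool.Agent.H20.TK.chi q l c (cv ν B + cv ν S) -
      Pool.Agent.H20.TK.chi q l c (cv ν B) := by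
    unfold chT
    rw [cv_mul, ← ht, add_sub_cancel_right]
  rw [← h6]
  linarith

/-- Lemma W: `j` is a bound for the codimension of the restrictions (`j = h¹ (B)`) -/
theorem lem_w [CharZero k] [T0Space X.P] (hX : IsVar X) (hg : ∃ g, Gen X g) (cy : CY q l c ν) {z : X.P}
    {S : Cart X} (hS : SPr X z S) (hz : Algebra.trdeg k (X.kap z) = 2) (hA : Ample S) (B : Cart X)
    (hB : 0 < tau q (cv ν B) (cv ν S) (cv ν S)) (j : ℕ)
    (hj : h0 (resD hX z (B * S)) 1 ≤ Module.finrank k (LinearMap.range (resS hX z (B * S) 1)) + j) :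
    Pool.Agent.H20.TK.chi q l c (cv ν B + cv ν S) - Pool.Agent.H20.TK.chi q l c (cv ν B) + h0 B 1 ≤
      (h0 (B * S) 1 : ℝ) + j := by
  have h1 := w_surf hX hg cy hS hz hA B hB
  have := fd hX hg hA (B * S)
  have h2 := ex_dim hX hS (B * S) 1
  rw [pow_one, mul_inv_cancel_right] at h2
  have h3 : (h0 (resD hX z (B * S)) 1 : ℝ) + h0 B 1 ≤ h0 (B * S) 1 + j := by
    exact_mod_cast (by omega : h0 (resD hX z (B * S)) 1 + h0 B 1 ≤ h0 (B * S) 1 + j)
  linarith

end Pool.Agent.H41.TW
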