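import Pool.Agent.H24.TK.Frm
import Pool.Agent.H83.TK.GsB
import Pool.Agent.H83.TU.UB

/-!
# [H41 TW SYS] Lemma W (THEOREM K, MP_e49dc9_ag): linear systems

A multiple of an ample divisor has a finite system of sections without common zeros, two of which have a transcendental
quotient.
-/

set_option autoImplicit false

namespace Pool.Agent.H41.TW

open Pool.Agent.H54.RV Pool.Agent.H83.TU Pool.Agent.H83.TK Pool.Agent.H24.TK

variable {k K : Type} [Field k] [Field K] [Algebra k K] {X : Mod k K}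

theorem exists_lsys [CharZero k] (hX : IsVar X) (hg : ∃ g, Gen X g) {A : Cart X} (hA : Ample A)
    (htr : Algebra.trdeg k K ≠ 0) :
    ∃ (m : ℕ) (σ : Type) (_ : Fintype σ) (s : Option σ → K), 1 ≤ m ∧ LSys X (A ^ m) s := by
  classical
  obtain ⟨g, hgg⟩ := hg
  -- a transcendental function
  obtain ⟨f, hf⟩ : ∃ f : K, Transcendental k f := by
    by_contra hcon
    push Not at hcon
    apply htr
    rw [trdeg_eq_zero_iff]
    exact ⟨fun a => by
      by_contra h
      exact hcon a h⟩
  obtain ⟨m₁, h1⟩ := uf_all hX A {g} f hA (fun x hx => by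
    rw [Finset.mem_singleton.1 hx, hgg.top]
    exact Algebra.mem_top)
  obtain ⟨m, hm, r, t, ht⟩ := exists_fr hX A hA
  obtain ⟨s₀, hs0, hs0f, hgn⟩ := h1 (m * (m₁ + 1)) (by nlinarith)
  have hgn' := hgn g (Finset.mem_singleton_self g)
  have hs00 : s₀ ≠ 0 := by
    rintro rfl
    exact hgn'.1 (zero_mul _)
  refine ⟨m * (m₁ + 1), Fin r ⊕ Bool, inferInstance,
    fun i => match i with
      | none => 0
      | some (Sum.inl j) => t j ^ (m₁ + 1)
      | some (Sum.inr true) => s₀
      | some (Sum.inr false) => s₀ * f, Nat.mul_pos hm (Nat.succ_pos _), ?_, ?_, ?_⟩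
  · intro i
    match i with
    | none => exact (secL _ 1).zero_mem
    | some (Sum.inl j) =>
      intro x
      have h2 := (X.O x).pow_mem (ht.sec j x) (m₁ + 1)
      rw [pow_one, mul_pow, pow_eq] at h2
      show t j ^ (m₁ + 1) * (A ^ (m * (m₁ + 1))).eq x ^ 1 ∈ X.O x
      rw [pow_one, pow_eq, pow_mul]
      exact h2
    | some (Sum.inr true) =>
      intro x
      show s₀ * (A ^ (m * (m₁ + 1))).eq x ^ 1 ∈ X.O x
      rw [pow_one, pow_eq]
      exact hs0 x
    | some (Sum.inr false) =>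
      intro x
      show s₀ * f * (A ^ (m * (m₁ + 1))).eq x ^ 1 ∈ X.O x
      rw [pow_one, pow_eq]
      exact hs0f x
  · intro x
    obtain ⟨j, hj⟩ := ht.cov x
    refine ⟨some (Sum.inl j), ?_⟩
    have h2 : Un (X.O x) ((t j * (A ^ m).eq x ^ 1) ^ (m₁ + 1)) := un_pow hj (m₁ + 1)
    rw [pow_one, mul_pow, pow_eq, ← pow_mul] at h2
    show Un (X.O x) (t j ^ (m₁ + 1) * (A ^ (m * (m₁ + 1))).eq x)
    rw [pow_eq]
    exact h2
  · refine ⟨some (Sum.inr false), some (Sum.inr true), hs00, ?_⟩
    show Transcendental k (s₀ * f / s₀)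
    rw [mul_div_cancel_left₀ _ hs00]
    exact hf

end Pool.Agent.H41.TW
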